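import Pool.Agent.Q66.FD.Asm
import Pool.Agent.Q66.FD.A
import Pool.Agent.Q66.FD.C
import Pool.Agent.Q66.FD.Conv
import Pool.Agent.Q66.FD.K1
import Pool.Agent.Q66.FD.K4
import Pool.Agent.Q66.FD.Maj
import Pool.Agent.Q66.FD.Sup
import Pool.Agent.Q66.FD.D
import Pool.Agent.Q86.FD.J
import Pool.Agent.Q86.FD.PROD
import Pool.Agent.Q86.FD.SYM
import Pool.Agent.Q86.FD.K2
import Pool.Agent.Q86.FD.K3
import Pool.Agent.Q86.FD.NEG

/-! # MP_c7f95f_an, Q1: no (non-uniqueness)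

In the plane (`N = 2`, identified with `ℂ`), for every `0 < s < 1`, every nonempty bounded open `Ω`
whose boundary is a null set and every bounded measurable `c` (of any sign, in particular `c ≤ 0`
and `c = 0`), there is a bounded measurable `μ` such that the problem with `f = 0` has two distinct
regular weak solutions (`0` and a smooth `w`); and there are bounded measurable `μ`, `f`, `f ≢ 0`,
such that the problem with `λ = 1` has the two distinct regular weak solutions `w` and `2 w`.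
The second part of the statement is the case of discs, `c = 0`, `f = 0`. -/

open Set MeasureTheory Filter Topology Q66.FD

namespace Pool.Agent.Results.MP_c7f95f_an.NotUnique

theorem nz {Ω : Set ℂ} (hΩ : IsOpen Ω) {w : ℂ → ℝ} (hw : Continuous w)
    (h : ∃ x ∈ Ω, w x ≠ 0) : ¬ ∀ᵐ x ∂(volume.restrict Ω), w x = 0 := by
  obtain ⟨x, hx, hwx⟩ := h
  intro hae
  rw [ae_restrict_iff' hΩ.measurableSet] at hae
  have ho : IsOpen (Ω ∩ {y | w y ≠ 0}) := hΩ.inter (isOpen_ne_fun hw continuous_const)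
  have h1 : volume (Ω ∩ {y | w y ≠ 0}) = 0 := by
    refine measure_mono_null ?_ hae
    rintro y ⟨hy1, hy2⟩ hy3
    exact hy2 (hy3 hy1)
  exact (ho.measure_pos volume ⟨x, hx, hwx⟩).ne' h1

theorem core (s : ℝ) (hs0 : 0 < s) (hs1 : s < 1) (Ω : Set ℂ) (hΩ : IsOpen Ω)
    (hne : Ω.Nonempty) (hb : Bornology.IsBounded Ω) (hfr : volume (frontier Ω) = 0)
    (c : ℂ → ℝ) (hc : Measurable c) (hcb : ∃ C : ℝ, ∀ x, |c x| ≤ C) :
    ∃ w : ℂ → ℝ, ContDiff ℝ ((⊤ : ℕ∞) : WithTop ℕ∞) w ∧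
    (¬ ∀ᵐ x ∂(volume.restrict Ω), w x = 0) ∧
    (∃ μ : ℂ → ℝ, Measurable μ ∧ (∃ C : ℝ, ∀ x, |μ x| ≤ C) ∧ ∀ lam : ℝ,
      (IsWeakSol s Ω lam (fun _ => 0) c μ (fun _ => 0) ∧ IsRegular s Ω (fun _ => 0)) ∧
      (IsWeakSol s Ω lam (fun _ => 0) c μ w ∧ IsRegular s Ω w)) ∧
    ∃ μ f : ℂ → ℝ, Measurable μ ∧ (∃ C : ℝ, ∀ x, |μ x| ≤ C) ∧ Measurable f ∧
      (∃ C : ℝ, ∀ x, |f x| ≤ C) ∧ (¬ ∀ᵐ x ∂(volume.restrict Ω), f x = 0) ∧
      (IsWeakSol s Ω 1 f c μ w ∧ IsRegular s Ω w) ∧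
      (IsWeakSol s Ω 1 f c μ (fun x => 2 * w x) ∧ IsRegular s Ω (fun x => 2 * w x)) := by
  have hJ : S_J := Pool.Agent.Q86.FD.t_J
  have hCV : S_CONV := t_CONV hJ
  have hP : S_PROD := Pool.Agent.Q86.FD.t_PROD hJ
  have hY : S_SYM := Pool.Agent.Q86.FD.t_SYM hJ hP
  have hA : S_A := t_A hJ t_SUP hP hY
  have hK1 : S_K1 := t_K1 hJ
  have hK2 : S_K2 := Pool.Agent.Q86.FD.t_K2 hJ
  have hK3 : S_K3 := Pool.Agent.Q86.FD.t_K3
  have hK4 : S_K4 := t_K4 hJ hP hY hK1 hK2 hK3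
  have hC : S_C := t_C hJ hP hA hK2 hK3 hK4 t_MAJ
  have hD : S_D := t_D hJ
  have hN : S_NEG := Pool.Agent.Q86.FD.t_NEG hJ hP
  obtain ⟨w, h1, h2, h3⟩ := main hJ hCV hP hC hD hN hs0 hs1 hΩ hne hb hfr c hc hcb
  exact ⟨w, h1, nz hΩ h1.continuous h2, h3⟩

theorem result :
    (∀ s : ℝ, 0 < s → s < 1 → ∀ Ω : Set ℂ, IsOpen Ω → Ω.Nonempty → Bornology.IsBounded Ω →
      volume (frontier Ω) = 0 → ∀ c : ℂ → ℝ, Measurable c → (∃ C : ℝ, ∀ x, |c x| ≤ C) →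
      ∃ w : ℂ → ℝ, ContDiff ℝ ((⊤ : ℕ∞) : WithTop ℕ∞) w ∧
      (¬ ∀ᵐ x ∂(volume.restrict Ω), w x = 0) ∧
      (∃ μ : ℂ → ℝ, Measurable μ ∧ (∃ C : ℝ, ∀ x, |μ x| ≤ C) ∧ ∀ lam : ℝ,
        (IsWeakSol s Ω lam (fun _ => 0) c μ (fun _ => 0) ∧ IsRegular s Ω (fun _ => 0)) ∧
        (IsWeakSol s Ω lam (fun _ => 0) c μ w ∧ IsRegular s Ω w)) ∧
      ∃ μ f : ℂ → ℝ, Measurable μ ∧ (∃ C : ℝ, ∀ x, |μ x| ≤ C) ∧ Measurable f ∧
        (∃ C : ℝ, ∀ x, |f x| ≤ C) ∧ (¬ ∀ᵐ x ∂(volume.restrict Ω), f x = 0) ∧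
        (IsWeakSol s Ω 1 f c μ w ∧ IsRegular s Ω w) ∧
        (IsWeakSol s Ω 1 f c μ (fun x => 2 * w x) ∧ IsRegular s Ω (fun x => 2 * w x))) ∧
    ∀ s : ℝ, 1 / 2 < s → s < 1 → ∀ (x₀ : ℂ) (r : ℝ), 0 < r →
      ∃ μ u v : ℂ → ℝ, Measurable μ ∧ (∃ C : ℝ, ∀ x, |μ x| ≤ C) ∧
        (¬ ∀ᵐ x ∂(volume.restrict (Metric.ball x₀ r)), u x = v x) ∧
        (IsWeakSol s (Metric.ball x₀ r) 1 (fun _ => 0) (fun _ => 0) μ u ∧
          IsRegular s (Metric.ball x₀ r) u) ∧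
        (IsWeakSol s (Metric.ball x₀ r) 1 (fun _ => 0) (fun _ => 0) μ v ∧
          IsRegular s (Metric.ball x₀ r) v) := by
  refine ⟨fun s hs0 hs1 Ω hΩ hne hb hfr c hc hcb => core s hs0 hs1 Ω hΩ hne hb hfr c hc hcb,
    fun s hs hs1 x₀ r hr => ?_⟩
  have hfr : volume (frontier (Metric.ball x₀ r)) = 0 := by
    rw [frontier_ball x₀ hr.ne']
    exact Measure.addHaar_sphere volume x₀ r
  obtain ⟨w, -, h2, ⟨μ, h3, h4, h5⟩, -⟩ := core s (by linarith) hs1 (Metric.ball x₀ r)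
    Metric.isOpen_ball (Metric.nonempty_ball.2 hr) Metric.isBounded_ball hfr (fun _ => 0)
    measurable_const ⟨0, fun x => by simp⟩
  exact ⟨μ, w, fun _ => 0, h3, h4, h2, (h5 1).2, (h5 1).1⟩

end Pool.Agent.Results.MP_c7f95f_an.NotUnique
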